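import Pool.Agent.H75.Mfd.Main

/-!
MP_996a67_lc, all dimensions: homeomorphism of n-manifolds without boundary is Borel reducible to
isomorphism of countable graphs, for every n.
-/

set_option autoImplicit false

namespace Pool.Agent.Results.MP_996a67_lc.AllDimensions

/-- For every `n` there is a Borel map `f` from `ℝ^(ℕ×ℕ)` to graphs on `ℕ` such that for all metric
codes `η`, `η'` (metrics on `ℕ`) whose completions `X`, `Y` are topological `n`-manifolds without
boundary, the value `f η` is a simple graph, and `X`, `Y` are homeomorphic if and only if the graphs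
`f η`, `f η'` are isomorphic. -/
theorem result (n : ℕ) :
    ∃ f : (ℕ → ℕ → ℝ) → (ℕ → ℕ → Bool), Measurable f ∧
      ∀ (X Y : Type) [MetricSpace X] [CompleteSpace X] [MetricSpace Y] [CompleteSpace Y]
        [ChartedSpace (EuclideanSpace ℝ (Fin n)) X] [ChartedSpace (EuclideanSpace ℝ (Fin n)) Y]
        (η η' : ℕ → ℕ → ℝ) (e : ℕ → X) (e' : ℕ → Y),
        Function.Injective e → Function.Injective e' → DenseRange e → DenseRange e' →
        (∀ i j, dist (e i) (e j) = η i j) → (∀ i j, dist (e' i) (e' j) = η' i j) →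
        ((∀ i j, f η i j = f η j i) ∧ (∀ i, f η i i = false) ∧
          (Nonempty (X ≃ₜ Y) ↔
            ∃ σ : Equiv.Perm ℕ, ∀ i j, f η (σ i) (σ j) = f η' i j)) := by
  obtain ⟨F, hF, h1, h2, h3⟩ := Pool.Agent.H75.Mfd.main_borel n
  refine ⟨F, hF, ?_⟩
  intro X Y _ _ _ _ _ _ η η' e e' he he' hd hd' hη hη'
  exact ⟨h1 η, h2 η, h3 X Y η η' e e' (Pool.Agent.H75.Mfd.locEuc_of_charted n X)
    (Pool.Agent.H75.Mfd.locEuc_of_charted n Y) he he' hd hd' hη hη'⟩

end Pool.Agent.Results.MP_996a67_lc.AllDimensions
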